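import Mathlib
import Pool.Agent.Helper18.SG.Goals2
import Pool.Agent.Helper18.Np.Cases

/-!
# Packet SG2-T5: systems with a dominating point
-/

set_option autoImplicit false

namespace Pool.Agent.Helper15.SG

open Finset Pool.Agent.Helper18.SG
open Pool.Agent.Helper43.Ah (rowsD mem_rowsD card_rowsD two_ch2)
open Pool.Agent.Lead.Sh (Inj rows)
open Helper18.Cusp (GoodFor Concl)
open Helper18.Np (fm fm_anti fm_drop sum_fm long_finish Ico_disj)

theorem fm_conv (m : ℕ → ℕ) (K : Finset ℕ) (i : ℕ) :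
    2 * fm m K (i + 1) ≤ fm m K i + fm m K (i + 2) := by
  unfold fm
  rw [mul_sum, ← sum_add_distrib]
  apply sum_le_sum
  intro k _
  omega

theorem sum_long (d R : ℕ) (h : R ≤ d + 1) :
    ∑ y ∈ range R, (d + 1 - y) + ((d + 1 - R) + 1).choose 2 = (d + 2).choose 2 := by
  induction R with
  | zero => simp
  | succ R ih =>
    rw [sum_range_succ, ← ih (by omega)]
    have h1 := two_ch2 (d + 1 - R)
    have h2 := two_ch2 (d + 1 - (R + 1))
    obtain ⟨a, ha⟩ : ∃ a, d + 1 - R = a + 1 := ⟨d - R, by omega⟩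
    have hb : d + 1 - (R + 1) = a := by omega
    rw [ha] at h1 ⊢
    rw [hb] at h2 ⊢
    nlinarith

/-- A sequence of integers with steps at most `7` and a large sum is large everywhere. -/
theorem low (R A : ℕ) (f : ℕ → ℤ) (hR : 0 < R) (hA : (A : ℤ) * R ≤ ∑ i ∈ range R, f i)
    (h1 : ∀ i, i + 1 < R → f i ≤ f (i + 1) + 7) (h2 : ∀ i, i + 1 < R → f (i + 1) ≤ f i + 7) :
    ∀ i < R, (A : ℤ) ≤ f i + 7 * (R - 1) := by
  obtain ⟨j, hj, hjA⟩ : ∃ j < R, (A : ℤ) ≤ f j := by
    by_contra hcon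
    push Not at hcon
    have h3 : ∑ i ∈ range R, f i < ∑ i ∈ range R, (A : ℤ) := by
      apply sum_lt_sum_of_nonempty
      · exact nonempty_range_iff.mpr (by omega)
      · intro i hi
        exact hcon i (mem_range.mp hi)
    rw [sum_const, card_range, nsmul_eq_mul] at h3
    linarith [mul_comm (A : ℤ) (R : ℤ)]
  have up : ∀ n : ℕ, j + n < R → f j ≤ f (j + n) + 7 * n := by
    intro n
    induction n with
    | zero => intro _; simp
    | succ n ih =>
      intro hn
      have h4 := ih (by omega)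
      have h5 := h1 (j + n) (by omega)
      rw [show j + (n + 1) = j + n + 1 by ring]
      push_cast
      linarith
  have dn : ∀ n : ℕ, n ≤ j → f j ≤ f (j - n) + 7 * n := by
    intro n
    induction n with
    | zero => intro _; simp
    | succ n ih =>
      intro hn
      have h4 := ih (by omega)
      have h5 := h2 (j - (n + 1)) (by omega)
      rw [show j - (n + 1) + 1 = j - n by omega] at h5
      push_cast
      linarith
  intro i hi
  rcases le_total j i with h | h
  · have h4 := up (i - j) (by omega)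
    rw [show j + (i - j) = i by omega] at h4
    push_cast [h] at h4
    have : ((i : ℤ) - j) ≤ R - 1 := by omega
    linarith
  · have h4 := dn (j - i) (by omega)
    rw [show j - (j - i) = i by omega] at h4
    push_cast [h] at h4
    have : ((j : ℤ) - i) ≤ R - 1 := by omega
    linarith

theorem goalT5 (hQK : GoalQK) (hGI : GoalGI) : GoalT5 := by
  intro s m d hm hs hd h9 hδ hroom
  have h19 : m 9 ≤ m 1 := hm (by norm_num)
  have h29 : m 9 ≤ m 2 := hm (by norm_num)
  obtain ⟨δ, hδe⟩ : ∃ δ, d = m 0 + δ := ⟨d - m 0, by omega⟩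
  have hcard : (Finset.Ico 1 9).card = 8 := by simp
  apply long_finish hm hs hd (by omega)
  rw [show d - m 0 = δ by omega]
  have hK : ∀ k ∈ Finset.Ico 1 9, m k ≤ δ + 1 := by
    intro k hk
    rw [Finset.mem_Ico] at hk
    have : m k ≤ m 1 := hm hk.1
    omega
  have hF := sum_fm m (Finset.Ico 1 9) (δ + 1) hK
  have hL := sum_long d (δ + 1) (by omega)
  rw [show d + 1 - (δ + 1) = m 0 by omega] at hL
  have h9s : ∑ i ∈ range 9, (m i + 1).choose 2 =
      (m 0 + 1).choose 2 + ∑ k ∈ Finset.Ico 1 9, (m k + 1).choose 2 := by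
    rw [Finset.range_eq_Ico, Finset.sum_eq_sum_Ico_succ_bot (by norm_num)]
  rw [h9s] at hroom
  set M := m 9 with hM
  set F : ℕ → ℕ := fun i => fm m (Finset.Ico 1 9) i with hFdef
  -- the rows as integers
  have hst1 : ∀ i, F (i + 1) ≤ F i := fun i => fm_anti m _ (Nat.le_succ i)
  have hst2 : ∀ i, F i ≤ F (i + 1) + 8 := fun i => by
    have := fm_drop m (Finset.Ico 1 9) i
    rw [hcard] at this
    exact this
  have hlow : ∀ i < δ + 1, ((54 * M ^ 2 : ℕ) : ℤ) ≤
      ((d : ℤ) + 1 - i - F i) + 7 * (((δ + 1 : ℕ) : ℤ) - 1) := by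
    apply low (δ + 1) (54 * M ^ 2) (fun i => (d : ℤ) + 1 - i - F i) (by omega)
    · have e1 : ∑ i ∈ range (δ + 1), ((d : ℤ) + 1 - i - F i) =
          ((∑ i ∈ range (δ + 1), (d + 1 - i) : ℕ) : ℤ) -
            ((∑ i ∈ range (δ + 1), F i : ℕ) : ℤ) := by
        push_cast
        rw [← sum_sub_distrib]
        apply sum_congr rfl
        intro i hi
        rw [mem_range] at hi
        push_cast [show i ≤ d + 1 by omega]
        ring
      rw [e1]
      have e2 : ∑ i ∈ range (δ + 1), F i = ∑ k ∈ Finset.Ico 1 9, (m k + 1).choose 2 := hF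
      have e3 : 54 * M ^ 2 * (δ + 1) ≤ 216 * M ^ 3 + 108 * M ^ 2 := by
        calc 54 * M ^ 2 * (δ + 1) ≤ 54 * M ^ 2 * (4 * M + 2) :=
              Nat.mul_le_mul_left _ (by omega)
          _ = 216 * M ^ 3 + 108 * M ^ 2 := by ring
      have e4 : 54 * M ^ 2 * (δ + 1) + ∑ i ∈ range (δ + 1), F i ≤
          ∑ i ∈ range (δ + 1), (d + 1 - i) := by
        rw [e2]
        omega
      have e5 : ((54 * M ^ 2 * (δ + 1) + ∑ i ∈ range (δ + 1), F i : ℕ) : ℤ) ≤
          ((∑ i ∈ range (δ + 1), (d + 1 - i) : ℕ) : ℤ) := by exact_mod_cast e4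
      push_cast at e5 ⊢
      linarith
    · intro i hi
      have := hst1 i
      have := hst2 i
      push_cast
      omega
    · intro i hi
      have := hst1 i
      have := hst2 i
      push_cast
      omega
  have hM2 : 35 * M + 7 ≤ 27 * M ^ 2 := by nlinarith
  have hlow' : ∀ i < δ + 1, 27 * M ^ 2 + 7 * M + i + F i ≤ d + 1 := by
    intro i hi
    have h3 := hlow i hi
    push_cast at h3
    have h4 : (35 * (M : ℤ) + 7) ≤ 27 * M ^ 2 := by exact_mod_cast hM2
    have h5 : (δ : ℤ) ≤ 4 * M + 1 := by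
      have : δ ≤ 4 * M + 1 := by omega
      exact_mod_cast this
    have h6 : (27 * (M : ℤ) ^ 2 + 7 * M + i + F i) ≤ d + 1 := by linarith
    exact_mod_cast h6
  have hconv := fm_conv m (Finset.Ico 1 9)
  apply hGI M _ _ _ m (by omega) (Ico_disj 1 s)
  · intro k hk
    rw [Finset.mem_Ico] at hk
    exact hm hk.1
  intro s' mm' hdis hKm hs'M hcount
  have hfm : ∀ y, fm mm' (Finset.Ico 1 9) y = F y := by
    intro y
    rw [hFdef]
    unfold fm
    exact sum_congr rfl fun k hk => by rw [hKm k hk]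
  apply hQK M 0 (δ + 1) (fun y => d + 1 - (δ + 1 - 1 - y) - F (δ + 1 - 1 - y)) _ _ _ mm'
    (by omega) (by omega)
  · intro y hy
    obtain ⟨i, hi⟩ : ∃ i, δ + 1 - 1 - y = i + 1 := ⟨δ - 1 - y, by omega⟩
    have hi2 : δ + 1 - 1 - (y + 1) = i := by omega
    simp only [hi, hi2]
    have h3 := hlow' (i + 1) (by omega)
    have h4 := hlow' i (by omega)
    have h5 := hst1 i
    have h6 := hst2 i
    have h7 : d + 1 - (i + 1) - F (i + 1) ≤ (d + 1 - i - F i) + 7 := by omega
    have h8 : M * (d + 1 - (i + 1) - F (i + 1)) ≤ M * ((d + 1 - i - F i) + 7) :=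
      Nat.mul_le_mul_left _ h7
    rw [mul_add] at h8
    have h9 : 27 * M ^ 2 + 7 * M ≤ d + 1 - (i + 1) - F (i + 1) := by omega
    omega
  · intro y hy _
    obtain ⟨i, hi⟩ : ∃ i, δ + 1 - 1 - y = i + 1 := ⟨δ - 1 - y, by omega⟩
    have hi2 : δ + 1 - 1 - (y + 1) = i := by omega
    simp only [hi, hi2]
    have h3 := hlow' (i + 1) (by omega)
    have h4 := hlow' i (by omega)
    have h5 := hst1 i
    have h6 := hst2 i
    have h7 : d + 1 - (i + 1) - F (i + 1) ≤ (d + 1 - i - F i) + 7 := by omega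
    have h8 : M * (d + 1 - (i + 1) - F (i + 1)) ≤ M * ((d + 1 - i - F i) + 7) :=
      Nat.mul_le_mul_left _ h7
    rw [mul_add] at h8
    have h9 : 27 * M ^ 2 + 7 * M ≤ d + 1 - (i + 1) - F (i + 1) := by omega
    omega
  · intro y hy _
    obtain ⟨i, hi⟩ : ∃ i, δ + 1 - 1 - y = i + 2 := ⟨δ - 2 - y, by omega⟩
    have hi2 : δ + 1 - 1 - (y + 1) = i + 1 := by omega
    have hi3 : δ + 1 - 1 - (y + 2) = i := by omega
    simp only [hi, hi2, hi3]
    have h3 := hlow' (i + 2) (by omega)
    have h4 := hlow' (i + 1) (by omega)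
    have h5 := hlow' i (by omega)
    have h6 : 2 * F (i + 1) ≤ F i + F (i + 2) := hconv i
    omega
  · intro x hx
    exact (mem_rowsD.mp hx).1
  · intro y hy
    have e1 : ((rowsD (δ + 1) (fun y => d + 1 - y)).filter (fun x => x.2 = y)).card =
        d + 1 - y := by
      have e2 : (rowsD (δ + 1) (fun y => d + 1 - y)).filter (fun x => x.2 = y) =
          (range (d + 1 - y)).image (fun k => (k, y)) := by
        ext x
        rw [mem_filter, mem_rowsD, mem_image]
        constructor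
        · rintro ⟨⟨h1, h2⟩, h3⟩
          refine ⟨x.1, ?_, ?_⟩
          · rw [mem_range]; omega
          · rw [← h3]
        · rintro ⟨k, hk, rfl⟩
          rw [mem_range] at hk
          exact ⟨⟨hy, hk⟩, rfl⟩
      rw [e2, card_image_of_injective _ (fun a b h => (Prod.mk.inj h).1), card_range]
    rw [e1, hfm]
    have e3 : δ + 1 - 1 - (δ + 1 - 1 - y) = y := by omega
    simp only [e3]
    omega
  · exact hdis
  · exact hs'M
  · have hc := hcount
    rw [card_rowsD, sum_union hdis] at hc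
    have hKs : ∑ k ∈ Finset.Ico 1 9, (mm' k + 1).choose 2 =
        ∑ k ∈ Finset.Ico 1 9, (m k + 1).choose 2 :=
      sum_congr rfl fun k hk => by rw [hKm k hk]
    rw [hKs] at hc
    have e1 : ∑ y ∈ range (δ + 1), (d + 1 - (δ + 1 - 1 - y) - F (δ + 1 - 1 - y)) =
        ∑ i ∈ range (δ + 1), (d + 1 - i - F i) :=
      Finset.sum_range_reflect (fun i => d + 1 - i - F i) (δ + 1)
    have e2 : ∑ i ∈ range (δ + 1), (d + 1 - i - F i) + ∑ i ∈ range (δ + 1), F i =
        ∑ i ∈ range (δ + 1), (d + 1 - i) := by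
      rw [← sum_add_distrib]
      apply sum_congr rfl
      intro i hi
      rw [mem_range] at hi
      have := hlow' i hi
      omega
    have e3 : ∑ i ∈ range (δ + 1), F i = ∑ k ∈ Finset.Ico 1 9, (m k + 1).choose 2 := hF
    show ∑ y ∈ range (δ + 1), (d + 1 - (δ + 1 - 1 - y) - F (δ + 1 - 1 - y)) ≤ _
    rw [e1]
    omega

end Pool.Agent.Helper15.SG
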